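import Pool.Agent.D0H90.SM.Stm2

set_option autoImplicit false

/-!
# SM 11: the gradient lemma (`t_GRAD : S_GRAD`)
-/

namespace Pool.Agent.D0H10.SM

open MvPolynomial Matrix Pool.Agent.D0H90.SM

universe u

variable {k : Type u} [Field k] {n d : ℕ}

omit [Field k] in
theorem glue_rest (c : Cf n d → k) : glue c (rest c) = c := by
  classical
  funext a
  unfold glue rest
  split_ifs <;> rfl

theorem eval_res (c : Cf n d → k) (z : Rest n d → k) (P : Pol n d k) :
    eval z (res c P) = eval (glue c z) P := by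
  classical
  have h : ((eval z).comp ((res c : Pol n d k →ₐ[k] MvPolynomial (Rest n d) k) :
      Pol n d k →+* MvPolynomial (Rest n d) k)) = eval (glue c z) := by
    apply MvPolynomial.ringHom_ext
    · intro a
      simp [res]
    · intro i
      simp only [RingHom.comp_apply, RingHom.coe_coe, res, aeval_X, eval_X]
      unfold glue
      split_ifs <;> simp
  exact congrArg (fun g : Pol n d k →+* k => g P) h

theorem eval_res_rest (c : Cf n d → k) (P : Pol n d k) :
    eval (rest c) (res c P) = eval c P := by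
  rw [eval_res, glue_rest]

/-- The maximal ideal at `rest c`. -/
noncomputable def nn (c : Cf n d → k) : Ideal (MvPolynomial (Rest n d) k) :=
  RingHom.ker (eval (rest c))

instance nn_prime (c : Cf n d → k) : (nn c).IsPrime := RingHom.ker_isPrime _

/-- The local ring of the slice at `rest c`. -/
abbrev OO (c : Cf n d → k) : Type u := Localization.AtPrime (nn c)

/-- `k[V] → O`. -/
noncomputable def f (c : Cf n d → k) : Pol n d k →+* OO c :=
  (algebraMap (MvPolynomial (Rest n d) k) (OO c)).comp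
    ((res c : Pol n d k →ₐ[k] MvPolynomial (Rest n d) k) :
      Pol n d k →+* MvPolynomial (Rest n d) k)

/-- The derivatives in the directions of the slice. -/
noncomputable def D (c : Cf n d → k) (ρ : Rest n d) (P : Pol n d k) : OO c :=
  f c (pderiv ρ.1 P)

theorem D_add (c : Cf n d → k) (ρ : Rest n d) (P Q : Pol n d k) :
    D c ρ (P + Q) = D c ρ P + D c ρ Q := by
  unfold D; rw [map_add, map_add]

theorem D_sub (c : Cf n d → k) (ρ : Rest n d) (P Q : Pol n d k) :
    D c ρ (P - Q) = D c ρ P - D c ρ Q := by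
  unfold D; rw [map_sub, map_sub]

theorem D_mul (c : Cf n d → k) (ρ : Rest n d) (P Q : Pol n d k) :
    D c ρ (P * Q) = f c P * D c ρ Q + f c Q * D c ρ P := by
  unfold D; rw [Derivation.leibniz, map_add, smul_eq_mul, smul_eq_mul, map_mul, map_mul]

theorem D_C (c : Cf n d → k) (ρ : Rest n d) (t : k) : D c ρ (C t) = 0 := by
  unfold D; rw [pderiv_C, map_zero]

theorem f_unit (c : Cf n d → k) {Q : Pol n d k} (hQ : eval c Q ≠ 0) : IsUnit (f c Q) := by
  have h : res c Q ∈ (nn c).primeCompl := by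
    intro h
    apply hQ
    rw [← eval_res_rest]
    exact h
  exact IsLocalization.map_units (OO c) (⟨res c Q, h⟩ : (nn c).primeCompl)

theorem f_max (c : Cf n d → k) {P : Pol n d k} (hP : eval c P = 0) :
    f c P ∈ IsLocalRing.maximalIdeal (OO c) := by
  have h : res c P ∈ nn c := by
    change eval (rest c) (res c P) = 0
    rw [eval_res_rest, hP]
  exact (IsLocalization.AtPrime.to_map_mem_maximal_iff (OO c) (nn c) (res c P)).2 h

theorem v_max (c : Cf n d → k) {P Q : Pol n d k} (hP : eval c P = 0) (hQ : eval c Q ≠ 0)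
    {v : OO c} (hv : v * f c Q = f c P) : v ∈ IsLocalRing.maximalIdeal (OO c) := by
  have h1 : v * f c Q ∈ IsLocalRing.maximalIdeal (OO c) := hv ▸ f_max c hP
  rcases (IsLocalRing.maximalIdeal.isMaximal (OO c)).isPrime.mem_or_mem h1 with h | h
  · exact h
  · exact absurd (f_unit c hQ) h

/-- `v` and `w` are the value and the gradient of the rational function `x`, which is regular
at `c`. -/
def Reg (c : Cf n d → k) (x : Rat n d k) (v : OO c) (w : Rest n d → OO c) : Prop :=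
  ∃ P Q : Pol n d k, eval c Q ≠ 0 ∧
    x * algebraMap (Pol n d k) (Rat n d k) Q = algebraMap (Pol n d k) (Rat n d k) P ∧
    v * f c Q = f c P ∧ ∀ ρ, v * D c ρ Q + w ρ * f c Q = D c ρ P

theorem Reg.uniq {c : Cf n d → k} {x : Rat n d k} {v v' : OO c} {w w' : Rest n d → OO c}
    (h : Reg c x v w) (h' : Reg c x v' w') : v = v' ∧ w = w' := by
  obtain ⟨P, Q, hQ, hx, hv, hw⟩ := h
  obtain ⟨P', Q', hQ', hx', hv', hw'⟩ := h'
  have e : P * Q' = P' * Q := by
    apply IsFractionRing.injective (Pol n d k) (Rat n d k)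
    rw [map_mul, map_mul, ← hx, ← hx']
    ring
  have ef : f c P * f c Q' = f c P' * f c Q := by rw [← map_mul, e, map_mul]
  have uQ := f_unit c hQ
  have uQ' := f_unit c hQ'
  have e1 : v = v' := by
    apply (uQ.mul uQ').mul_right_cancel
    linear_combination (f c Q') * hv - (f c Q) * hv' + ef
  refine ⟨e1, ?_⟩
  funext ρ
  have eD : D c ρ (P * Q') = D c ρ (P' * Q) := by rw [e]
  rw [D_mul, D_mul] at eD
  apply (uQ.mul uQ').mul_right_cancel
  subst e1
  linear_combination (f c Q') * hw ρ - (f c Q) * hw' ρ + eD + (D c ρ Q') * hv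
    - (D c ρ Q) * hv'

theorem Reg.add {c : Cf n d → k} {x x' : Rat n d k} {v v' : OO c} {w w' : Rest n d → OO c}
    (h : Reg c x v w) (h' : Reg c x' v' w') : Reg c (x + x') (v + v') (w + w') := by
  obtain ⟨P, Q, hQ, hx, hv, hw⟩ := h
  obtain ⟨P', Q', hQ', hx', hv', hw'⟩ := h'
  refine ⟨P * Q' + P' * Q, Q * Q', ?_, ?_, ?_, ?_⟩
  · rw [map_mul]; exact mul_ne_zero hQ hQ'
  · rw [map_mul, map_add, map_mul, map_mul, ← hx, ← hx']; ring
  · rw [map_mul, map_add, map_mul, map_mul, ← hv, ← hv']; ring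
  · intro ρ
    rw [D_mul, D_add, D_mul, D_mul, map_mul, Pi.add_apply]
    linear_combination (f c Q') * hw ρ + (f c Q) * hw' ρ + (D c ρ Q') * hv
      + (D c ρ Q) * hv'

theorem Reg.mul {c : Cf n d → k} {x x' : Rat n d k} {v v' : OO c} {w w' : Rest n d → OO c}
    (h : Reg c x v w) (h' : Reg c x' v' w') :
    Reg c (x * x') (v * v') (v • w' + v' • w) := by
  obtain ⟨P, Q, hQ, hx, hv, hw⟩ := h
  obtain ⟨P', Q', hQ', hx', hv', hw'⟩ := h'
  refine ⟨P * P', Q * Q', ?_, ?_, ?_, ?_⟩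
  · rw [map_mul]; exact mul_ne_zero hQ hQ'
  · rw [map_mul, map_mul, ← hx, ← hx']; ring
  · rw [map_mul, map_mul, ← hv, ← hv']; ring
  · intro ρ
    rw [D_mul, D_mul, map_mul, Pi.add_apply, Pi.smul_apply, Pi.smul_apply, smul_eq_mul,
      smul_eq_mul, ← hv, ← hv', ← hw, ← hw']
    ring

theorem Reg.smul {c : Cf n d → k} {x : Rat n d k} {v : OO c} {w : Rest n d → OO c}
    (t : k) (h : Reg c x v w) :
    Reg c (t • x) (f c (C t) * v) (f c (C t) • w) := by
  obtain ⟨P, Q, hQ, hx, hv, hw⟩ := h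
  refine ⟨C t * P, Q, hQ, ?_, ?_, ?_⟩
  · rw [map_mul, ← hx, smul_mul_assoc, Algebra.smul_def]
    congr 1
  · rw [map_mul, ← hv]; ring
  · intro ρ
    rw [D_mul, D_C, Pi.smul_apply, smul_eq_mul, ← hw]
    ring

theorem Reg.zero (c : Cf n d → k) : Reg c (0 : Rat n d k) 0 0 := by
  refine ⟨0, 1, ?_, ?_, ?_, ?_⟩
  · rw [map_one]; exact one_ne_zero
  · rw [zero_mul, map_zero]
  · rw [zero_mul, map_zero]
  · intro ρ
    unfold D
    simp

theorem exists_vw (c : Cf n d → k) {P Q : Pol n d k} (hQ : eval c Q ≠ 0) :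
    ∃ (v : OO c) (w : Rest n d → OO c), v * f c Q = f c P ∧
      ∀ ρ, v * D c ρ Q + w ρ * f c Q = D c ρ P := by
  obtain ⟨q, hq⟩ := f_unit c hQ
  refine ⟨f c P * ((q⁻¹ : (OO c)ˣ) : OO c), fun ρ =>
    (D c ρ P - f c P * ((q⁻¹ : (OO c)ˣ) : OO c) * D c ρ Q) * ((q⁻¹ : (OO c)ˣ) : OO c), ?_, ?_⟩
  · rw [← hq, mul_assoc, Units.inv_mul, mul_one]
  · intro ρ
    rw [← hq, mul_assoc _ _ (q : OO c), Units.inv_mul, mul_one]
    ring

/-- The module generated by the gradients of the invariant functions which vanish at `c`. -/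
noncomputable def GG (c : Cf n d → k) : Submodule (OO c) (Rest n d → OO c) :=
  Submodule.span (OO c) {w | ∃ x v, InvVan c x ∧ Reg c x v w}

theorem sq_reg (c : Cf n d → k) {x : Rat n d k} (hx : x ∈ Sq c) :
    ∃ v w, Reg c x v w ∧ w ∈ IsLocalRing.maximalIdeal (OO c) • GG c := by
  unfold Sq at hx
  induction hx using Submodule.span_induction with
  | mem x h =>
    obtain ⟨g, h, hg, hh, rfl⟩ := h
    have key : ∀ g : Rat n d k, InvVan c g → ∃ v w, Reg c g v w ∧
        v ∈ IsLocalRing.maximalIdeal (OO c) ∧ w ∈ GG c := by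
      intro g hg
      have hg' := hg
      obtain ⟨P, Q, -, hQ, hP, e⟩ := hg
      obtain ⟨v, w, hv, hw⟩ := exists_vw c (P := P) hQ
      have hr : Reg c g v w := ⟨P, Q, hQ, e, hv, hw⟩
      exact ⟨v, w, hr, v_max c hP hQ hv, Submodule.subset_span ⟨g, v, hg', hr⟩⟩
    obtain ⟨v, w, hr, hv, hw⟩ := key g hg
    obtain ⟨v', w', hr', hv', hw'⟩ := key h hh
    exact ⟨_, _, hr.mul hr', Submodule.add_mem _ (Submodule.smul_mem_smul hv hw')
      (Submodule.smul_mem_smul hv' hw)⟩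
  | zero => exact ⟨0, 0, Reg.zero c, Submodule.zero_mem _⟩
  | add x y _ _ hx hy =>
    obtain ⟨v, w, hr, hw⟩ := hx
    obtain ⟨v', w', hr', hw'⟩ := hy
    exact ⟨_, _, hr.add hr', Submodule.add_mem _ hw hw'⟩
  | smul t x _ hx =>
    obtain ⟨v, w, hr, hw⟩ := hx
    exact ⟨_, _, hr.smul t, Submodule.smul_mem _ _ hw⟩

theorem sum_reg (c : Cf n d → k) (u : Rest n d → Rat n d k) (V : Rest n d → OO c)
    (W : Rest n d → Rest n d → OO c) (h : ∀ ρ, Reg c (u ρ) (V ρ) (W ρ)) (a : Rest n d → k)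
    (s : Finset (Rest n d)) :
    ∃ v w, Reg c (∑ ρ ∈ s, a ρ • u ρ) v w ∧ w ∈ Submodule.span (OO c) (Set.range W) := by
  classical
  induction s using Finset.induction_on with
  | empty => exact ⟨0, 0, by simpa using Reg.zero c, Submodule.zero_mem _⟩
  | insert ρ s hρ ih =>
    obtain ⟨v, w, hr, hw⟩ := ih
    rw [Finset.sum_insert hρ]
    exact ⟨_, _, ((h ρ).smul (a ρ)).add hr, Submodule.add_mem _
      (Submodule.smul_mem _ _ (Submodule.subset_span ⟨ρ, rfl⟩)) hw⟩

theorem GG_le (c : Cf n d → k) (u : Rest n d → Rat n d k) (hu : Gens c u) (V : Rest n d → OO c)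
    (W : Rest n d → Rest n d → OO c) (h : ∀ ρ, Reg c (u ρ) (V ρ) (W ρ)) :
    GG c ≤ Submodule.span (OO c) (Set.range W) := by
  have hfg : (GG c).FG := IsNoetherian.noetherian _
  refine Submodule.le_of_le_smul_of_le_jacobson_bot hfg
    (IsLocalRing.maximalIdeal_le_jacobson ⊥) ?_
  unfold GG
  rw [Submodule.span_le]
  rintro w ⟨x, v, hx, hr⟩
  obtain ⟨a, ha⟩ := hu x hx
  obtain ⟨v1, w1, hr1, hw1⟩ := sq_reg c ha
  obtain ⟨v2, w2, hr2, hw2⟩ := sum_reg c u V W h a Finset.univ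
  have hr3 := hr2.add hr1
  have e : ∑ ρ, a ρ • u ρ + (x - ∑ ρ, a ρ • u ρ) = x := by abel
  rw [e] at hr3
  rw [(hr.uniq hr3).2]
  exact Submodule.add_mem_sup hw2 hw1

theorem invt_sub {P Q : Pol n d k} (h : Invt P Q) (t : k) : Invt (P - C t * Q) Q := by
  intro A A' hA c
  have := h A A' hA c
  simp only [map_sub, map_mul, eval_C]
  linear_combination this

theorem mem_GG (c : Cf n d → k) {P Q : Pol n d k} (h : Invt P Q) (hQ : eval c Q ≠ 0)
    {v : OO c} {w : Rest n d → OO c} (hv : v * f c Q = f c P)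
    (hw : ∀ ρ, v * D c ρ Q + w ρ * f c Q = D c ρ P) : w ∈ GG c := by
  set t : k := eval c P / eval c Q with ht
  have hQ0 : algebraMap (Pol n d k) (Rat n d k) Q ≠ 0 := by
    intro h0
    have : Q = 0 := by
      apply IsFractionRing.injective (Pol n d k) (Rat n d k)
      rw [h0, map_zero]
    apply hQ
    rw [this, map_zero]
  refine Submodule.subset_span ⟨algebraMap _ (Rat n d k) (P - C t * Q) /
    algebraMap _ (Rat n d k) Q, v - f c (C t), ⟨P - C t * Q, Q, invt_sub h t, hQ, ?_, ?_⟩,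
    ⟨P - C t * Q, Q, hQ, ?_, ?_, ?_⟩⟩
  · rw [map_sub, map_mul, eval_C, ht, div_mul_cancel₀ _ hQ, sub_self]
  · rw [div_mul_cancel₀ _ hQ0]
  · rw [div_mul_cancel₀ _ hQ0]
  · rw [map_sub, map_mul, ← hv]; ring
  · intro ρ
    rw [D_sub, D_mul, D_C, ← hw]; ring

theorem exists_factor {σ : Type*} [Finite σ] (z : σ → k) (j : MvPolynomial σ k) (hj : j ≠ 0)
    (h0 : eval z j = 0) : ∃ p, Irreducible p ∧ eval z p = 0 ∧ p ∣ j := by
  obtain ⟨s, hs, hj'⟩ := WfDvdMonoid.exists_factors j hj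
  obtain ⟨q, hq⟩ := hj'
  have h1 : eval z (s.prod) = 0 := by
    rw [← hq, map_mul] at h0
    rcases mul_eq_zero.1 h0 with h | h
    · exact h
    · exact absurd (h ▸ (q.isUnit.map (eval z))) not_isUnit_zero
  have h2 : (s.map (eval z)).prod = 0 := by
    rw [← h1, map_multiset_prod]
  rw [Multiset.prod_eq_zero_iff, Multiset.mem_map] at h2
  obtain ⟨p, hp, hp0⟩ := h2
  exact ⟨p, hs p hp, hp0, (Multiset.dvd_prod hp).trans (Dvd.intro _ hq)⟩

theorem rest_nonempty (hn : 2 ≤ n) (hd : 2 ≤ d) : Nonempty (Rest n d) := by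
  classical
  have hd1 : 1 < d + 1 := by omega
  let i0 : Fin n := ⟨0, by omega⟩
  let i1 : Fin n := ⟨1, by omega⟩
  have hne : i0 ≠ i1 := by
    intro h
    have := congrArg Fin.val h
    simp [i0, i1] at this
  let m : Fin n → Fin (d + 1) := fun l => if l = i0 then ⟨d - 1, by omega⟩ else
    if l = i1 then ⟨1, by omega⟩ else 0
  have hm : ∑ l, (m l : ℕ) = d := by
    have h1 : ∀ l, (m l : ℕ) = (if l = i0 then d - 1 else 0) + (if l = i1 then 1 else 0) := by
      intro l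
      simp only [m]
      by_cases h : l = i0
      · subst h
        rw [if_pos rfl, if_pos rfl, if_neg hne]
        rfl
      · rw [if_neg h, if_neg h]
        by_cases h' : l = i1
        · rw [if_pos h', if_pos h']
        · rw [if_neg h', if_neg h']
          rfl
    rw [Finset.sum_congr rfl fun l _ => h1 l, Finset.sum_add_distrib, Finset.sum_ite_eq',
      Finset.sum_ite_eq']
    simp
    omega
  refine ⟨⟨(i0, ⟨m, hm⟩), ?_⟩⟩
  rintro ⟨i, hi⟩
  have hi' : (m i : ℕ) = d := hi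
  simp only [m] at hi'
  split_ifs at hi'
  · simp at hi'; omega
  · simp at hi'; omega
  · simp at hi'; omega

theorem jac_eq (c : Cf n d → k) (P Q : Rest n d → Pol n d k) (V : Rest n d → OO c)
    (W : Rest n d → Rest n d → OO c) (hV : ∀ ρ, V ρ * f c (Q ρ) = f c (P ρ))
    (hW : ∀ ρ σ, V ρ * D c σ (Q ρ) + W ρ σ * f c (Q ρ) = D c σ (P ρ)) :
    open Classical in
    f c (Jac P Q) = (∏ ρ, f c (Q ρ) ^ 2) * Matrix.det (Matrix.of W) := by
  classical
  unfold Jac
  rw [RingHom.map_det, ← Matrix.det_mul_column]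
  congr 1
  ext ρ σ
  simp only [RingHom.mapMatrix_apply, Matrix.map_apply, Matrix.of_apply]
  unfold grad
  rw [map_sub, map_mul, map_mul, ← hV]
  change f c (Q ρ) * D c σ (P ρ) - V ρ * f c (Q ρ) * D c σ (Q ρ) = _
  rw [← hW]
  ring

theorem t_GRAD : S_GRAD.{u} := by
  classical
  intro k _ _ _ n d hn hd c u hu P Q hPQ hJ
  have hex : ∀ ρ, ∃ (v : OO c) (w : Rest n d → OO c), v * f c (Q ρ) = f c (P ρ) ∧
      ∀ σ, v * D c σ (Q ρ) + w σ * f c (Q ρ) = D c σ (P ρ) :=
    fun ρ => exists_vw c (hPQ ρ).2.1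
  choose V W hV hW using hex
  have hreg : ∀ ρ, Reg c (u ρ) (V ρ) (W ρ) := fun ρ =>
    ⟨P ρ, Q ρ, (hPQ ρ).2.1, (hPQ ρ).2.2.2, hV ρ, hW ρ⟩
  have hle := GG_le c u hu V W hreg
  have main : ∀ P' Q' : Rest n d → Pol n d k,
      (∀ ρ, Invt (P' ρ) (Q' ρ) ∧ eval c (Q' ρ) ≠ 0) →
      ∃ s b : MvPolynomial (Rest n d) k, eval (rest c) s ≠ 0 ∧
        s * res c (Jac P' Q') = b * res c (Jac P Q) := by
    intro P' Q' h'
    have hex' : ∀ ρ, ∃ (v : OO c) (w : Rest n d → OO c), v * f c (Q' ρ) = f c (P' ρ) ∧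
        ∀ σ, v * D c σ (Q' ρ) + w σ * f c (Q' ρ) = D c σ (P' ρ) :=
      fun ρ => exists_vw c (h' ρ).2
    choose V' W' hV' hW' using hex'
    have hmem : ∀ ρ, ∃ a : Rest n d → OO c, ∑ σ, a σ • W σ = W' ρ := fun ρ =>
      (Submodule.mem_span_range_iff_exists_fun (OO c)).1
        (hle (mem_GG c (h' ρ).1 (h' ρ).2 (hV' ρ) (hW' ρ)))
    choose a ha using hmem
    have hdet : Matrix.of W' = Matrix.of a * Matrix.of W := by
      ext ρ σ
      rw [Matrix.mul_apply, Matrix.of_apply, ← ha ρ, Finset.sum_apply]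
      rfl
    have e1 := jac_eq c P Q V W hV hW
    have e2 := jac_eq c P' Q' V' W' hV' hW'
    rw [hdet, Matrix.det_mul] at e2
    have hunit : IsUnit (∏ ρ, f c (Q ρ) ^ 2) := by
      rw [IsUnit.prod_univ_iff]
      exact fun ρ => (f_unit c (hPQ ρ).2.1).pow 2
    obtain ⟨q, hq⟩ := hunit
    have e3 : f c (Jac P' Q') = ((∏ ρ, f c (Q' ρ) ^ 2) * Matrix.det (Matrix.of a) *
        ((q⁻¹ : (OO c)ˣ) : OO c)) * f c (Jac P Q) := by
      rw [e1, e2, ← hq]
      have := q.inv_mul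
      linear_combination (-(∏ ρ, f c (Q' ρ) ^ 2) * Matrix.det (Matrix.of a) *
        Matrix.det (Matrix.of W)) * this
    obtain ⟨⟨b, s⟩, hb⟩ := IsLocalization.surj (nn c).primeCompl
      ((∏ ρ, f c (Q' ρ) ^ 2) * Matrix.det (Matrix.of a) * ((q⁻¹ : (OO c)ˣ) : OO c))
    refine ⟨s, b, s.2, ?_⟩
    apply IsLocalization.injective (OO c) (nn c).primeCompl_le_nonZeroDivisors
    rw [map_mul, map_mul]
    change _ * f c (Jac P' Q') = _ * f c (Jac P Q)
    rw [e3]
    simp only at hb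
    linear_combination f c (Jac P Q) * hb
  by_cases hj : res c (Jac P Q) = 0
  · obtain ⟨ρ⟩ := rest_nonempty hn hd
    have hne : (X ρ - C (c ρ.1) : MvPolynomial (Rest n d) k) ≠ 0 := by
      intro h
      have := congrArg (eval (fun σ => c σ.1 + 1)) h
      simp at this
    obtain ⟨p, hp, hp0, -⟩ := exists_factor (rest c) (X ρ - C (c ρ.1)) hne (by simp [rest])
    refine ⟨p, hp, hp0, ?_⟩
    intro P' Q' h'
    obtain ⟨s, b, hs, e⟩ := main P' Q' h'
    rw [hj, mul_zero] at e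
    have hs0 : s ≠ 0 := by
      intro h
      rw [h, map_zero] at hs
      exact hs rfl
    rw [(mul_eq_zero.1 e).resolve_left hs0]
    exact dvd_zero p
  · obtain ⟨p, hp, hp0, hpj⟩ := exists_factor (rest c) (res c (Jac P Q)) hj
      (by rw [eval_res_rest]; exact hJ)
    refine ⟨p, hp, hp0, ?_⟩
    intro P' Q' h'
    obtain ⟨s, b, hs, e⟩ := main P' Q' h'
    have hprime : Prime p := hp.prime
    have hdvd : p ∣ s * res c (Jac P' Q') := by
      rw [e]; exact hpj.mul_left b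
    rcases hprime.dvd_or_dvd hdvd with h | h
    · exfalso
      apply hs
      obtain ⟨r, rfl⟩ := h
      rw [map_mul, hp0, zero_mul]
    · exact h

end Pool.Agent.D0H10.SM
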