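import Pool.Agent.D0H90.SM.Stm4
import Pool.Agent.D0H10.SM.Grad

set_option autoImplicit false

/-!
# SM 26: counting exponents (`t_CARD : S_CARD`)
-/

namespace Pool.Agent.D0H10.SM.Card

open MvPolynomial Matrix Pool.Agent.D0H90.SM

theorem le_of_sum {n d : ℕ} (P : Fin n → ℕ) (h : ∑ i, P i = d) (l : Fin n) : P l < d + 1 := by
  rw [← h, Nat.lt_succ_iff]
  exact Finset.single_le_sum (f := P) (fun _ _ => Nat.zero_le _) (Finset.mem_univ l)

/-- Exponents of degree `d`. -/
def exEquiv (n d : ℕ) : Ex n d ≃ {P : Fin n → ℕ // ∑ i, P i = d} where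
  toFun m := ⟨fun l => (m.1 l : ℕ), m.2⟩
  invFun P := ⟨fun l => ⟨P.1 l, le_of_sum P.1 P.2 l⟩, P.2⟩
  left_inv m := by
    apply Subtype.ext
    rfl
  right_inv P := by
    apply Subtype.ext
    rfl

theorem card_ex (N d : ℕ) : Fintype.card (Ex (N + 1) d) = (N + d).choose d := by
  classical
  rw [Fintype.card_congr ((exEquiv (N + 1) d).trans (Sym.equivNatSumOfFintype (Fin (N + 1)) d).symm),
    Sym.card_sym_eq_choose, Fintype.card_fin]
  congr 1
  omega

/-- The exponent of `x_i^d`. -/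
def sg {n : ℕ} (d : ℕ) (i : Fin n) : Ex n d :=
  ⟨fun l => if l = i then Fin.last d else 0, by
    rw [Finset.sum_eq_single i]
    · simp
    · intro b _ hb
      simp [hb]
    · simp⟩

theorem sg_val {n : ℕ} (d : ℕ) (i l : Fin n) : (((sg d i).1 l : Fin (d + 1)) : ℕ) =
    if l = i then d else 0 := by
  unfold sg
  by_cases h : l = i
  · simp [h]
  · simp [h]

theorem eq_sg {n d : ℕ} (m : Ex n d) (i : Fin n) (h : (m.1 i : ℕ) = d) : m = sg d i := by
  apply Subtype.ext
  funext l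
  apply Fin.ext
  rw [sg_val]
  by_cases hl : l = i
  · subst hl
    rw [if_pos rfl, h]
  · rw [if_neg hl]
    have h1 : (m.1 i : ℕ) + (m.1 l : ℕ) ≤ ∑ s, (m.1 s : ℕ) := by
      rw [← Finset.sum_pair (f := fun s => (m.1 s : ℕ)) (Ne.symm hl)]
      exact Finset.sum_le_sum_of_subset (Finset.subset_univ _)
    rw [m.2, h] at h1
    omega

/-- Indices not in `Rest`. -/
def toS {n d : ℕ} (p : Fin n × Fin n) : {a : Cf n d // ∃ i, (a.2.1 i : ℕ) = d} :=
  ⟨(p.1, sg d p.2), p.2, by rw [sg_val, if_pos rfl]⟩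

theorem toS_bij {n d : ℕ} (hd : 1 ≤ d) : Function.Bijective (toS (n := n) (d := d)) := by
  constructor
  · rintro ⟨j, i⟩ ⟨j', i'⟩ h
    have h1 : (j, sg d i) = (j', sg d i') := congrArg Subtype.val h
    have h2 := congrArg Prod.fst h1
    have h3 : sg d i = sg d i' := congrArg Prod.snd h1
    have h4 : (((sg d i).1 i : Fin (d + 1)) : ℕ) = (((sg d i').1 i : Fin (d + 1)) : ℕ) := by
      rw [h3]
    rw [sg_val, sg_val, if_pos rfl] at h4
    by_cases h5 : i = i'
    · rw [h5]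
      exact congrArg (fun x => (x, i')) h2
    · rw [if_neg h5] at h4
      omega
  · rintro ⟨⟨j, m⟩, i, hi⟩
    refine ⟨(j, i), ?_⟩
    apply Subtype.ext
    change (j, sg d i) = (j, m)
    rw [eq_sg m i hi]

theorem t_CARD : S_CARD := by
  intro N d hN hd
  refine ⟨?_, ?_, ?_⟩
  · rw [Fintype.card_prod, Fintype.card_fin, card_ex]
  · have h1 : Fintype.card {a : Cf (N + 1) d // ∃ i, (a.2.1 i : ℕ) = d} = (N + 1) ^ 2 := by
      rw [← Fintype.card_of_bijective (toS_bij (n := N + 1) (d := d) (by omega)),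
        Fintype.card_prod, Fintype.card_fin, pow_two]
    rw [← h1]
    have h2 : Fintype.card (Rest (N + 1) d) = Fintype.card (Cf (N + 1) d) -
        Fintype.card {a : Cf (N + 1) d // ∃ i, (a.2.1 i : ℕ) = d} := by
      rw [← Fintype.card_subtype_compl]
    have h3 := Fintype.card_subtype_le (fun a : Cf (N + 1) d => ∃ i, (a.2.1 i : ℕ) = d)
    omega
  · rw [Fintype.card_pos_iff]
    exact Pool.Agent.D0H10.SM.rest_nonempty (by omega) hd

end Pool.Agent.D0H10.SM.Card
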