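import Pool.Agent.D0H90.SM.Stm4
import Pool.Agent.D0H10.SM.Card

set_option autoImplicit false

/-!
# SM 27: the coordinates of a conjugate of the generic point (`t_GENR`)
-/

namespace Pool.Agent.D0H10.SM.Genr

open MvPolynomial Matrix Pool.Agent.D0H90.SM Cardinal

universe u

theorem mon_bas {n d : ℕ} {R : Type*} [CommRing R] (i : Fin n) (m : Ex n d) :
    mon m (bas i : Fin n → R) = if m = Card.sg d i then 1 else 0 := by
  classical
  unfold mon
  by_cases h : m = Card.sg d i
  · rw [if_pos h]
    subst h
    refine Finset.prod_eq_one fun l _ => ?_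
    rw [Card.sg_val]
    by_cases hl : l = i
    · subst hl
      simp [bas]
    · rw [if_neg hl, pow_zero]
  · rw [if_neg h]
    have h1 : ∃ l, l ≠ i ∧ (m.1 l : ℕ) ≠ 0 := by
      by_contra hcon
      push Not at hcon
      apply h
      apply Card.eq_sg
      exact (Finset.sum_eq_single i (fun b _ hb => hcon b hb) (by simp)).symm.trans m.2
    obtain ⟨l, hl, hm⟩ := h1
    refine Finset.prod_eq_zero (Finset.mem_univ l) ?_
    have : (bas i : Fin n → R) l = 0 := by
      simp [bas, hl]
    rw [this, zero_pow hm]

theorem ev_bas {n d : ℕ} {R : Type*} [CommRing R] (c : Cf n d → R) (i j : Fin n) :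
    ev c (bas i) j = c (j, Card.sg d i) := by
  classical
  unfold ev
  simp only [mon_bas]
  rw [Finset.sum_eq_single (Card.sg d i)]
  · simp
  · intro b _ hb
    simp [hb]
  · simp

theorem card_cf {n d : ℕ} (hd : 1 ≤ d) :
    Fintype.card (Cf n d) = Fintype.card ((Fin n × Fin n) ⊕ Rest n d) := by
  classical
  have h1 : Fintype.card {a : Cf n d // ∃ i, (a.2.1 i : ℕ) = d} = n * n := by
    rw [← Fintype.card_of_bijective (Card.toS_bij (n := n) (d := d) hd),
      Fintype.card_prod, Fintype.card_fin]
  have h2 : Fintype.card (Rest n d) = Fintype.card (Cf n d) -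
      Fintype.card {a : Cf n d // ∃ i, (a.2.1 i : ℕ) = d} := by
    rw [← Fintype.card_subtype_compl]
  have h3 := Fintype.card_subtype_le (fun a : Cf n d => ∃ i, (a.2.1 i : ℕ) = d)
  rw [Fintype.card_sum, Fintype.card_prod (Fin n) (Fin n), Fintype.card_fin]
  omega

/-- A finite family generating a field which contains an algebraically independent family of the
same cardinality is algebraically independent. -/
theorem indep_of_gen {k Ω : Type u} {ι κ : Type} [Field k] [Field Ω] [Algebra k Ω] [Finite ι] [Finite κ]
    (x : ι → Ω) (y : κ → Ω) (hy : AlgebraicIndependent k y)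
    (hmem : ∀ a, y a ∈ IntermediateField.adjoin k (Set.range x))
    (hcard : Nat.card ι ≤ Nat.card κ) : AlgebraicIndependent k x := by
  set L := IntermediateField.adjoin k (Set.range x) with hL
  let x' : ι → L := fun i => ⟨x i, IntermediateField.subset_adjoin k _ ⟨i, rfl⟩⟩
  let y' : κ → L := fun a => ⟨y a, hmem a⟩
  have hy' : AlgebraicIndependent k y' := AlgebraicIndependent.of_comp L.val hy
  have halg : Algebra.IsAlgebraic (Algebra.adjoin k (Set.range x')) L := by
    constructor
    rintro ⟨w, hw⟩
    obtain ⟨r, s, hrs⟩ := (IntermediateField.mem_adjoin_range_iff k x w).1 hw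
    by_cases hs : aeval x s = 0
    · have : (⟨w, hw⟩ : L) = 0 := by
        apply Subtype.ext
        change w = 0
        rw [hrs, hs, div_zero]
      rw [this]
      exact isAlgebraic_zero
    · have hmemA : ∀ t : MvPolynomial ι k, aeval x' t ∈ Algebra.adjoin k (Set.range x') := by
        intro t
        rw [Algebra.adjoin_range_eq_range_aeval]
        exact ⟨t, rfl⟩
      have hval : ∀ t : MvPolynomial ι k, ((aeval x' t : L) : Ω) = aeval x t := by
        intro t
        have := MvPolynomial.map_aeval x' (algebraMap L Ω) t
        rw [MvPolynomial.aeval_def]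
        exact this
      refine ⟨Polynomial.C (⟨aeval x' s, hmemA s⟩ : Algebra.adjoin k (Set.range x')) *
        Polynomial.X - Polynomial.C ⟨aeval x' r, hmemA r⟩, ?_, ?_⟩
      · intro h
        have h1 := congrArg (fun p => Polynomial.coeff p 1) h
        simp only [Polynomial.coeff_sub, Polynomial.coeff_C_mul, Polynomial.coeff_X_one, mul_one,
          Polynomial.coeff_C_succ, sub_zero, Polynomial.coeff_zero] at h1
        apply hs
        rw [← hval]
        have h2 : (aeval x' s : L) = 0 := congrArg Subtype.val h1
        rw [h2]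
        rfl
      · rw [map_sub, map_mul, Polynomial.aeval_C, Polynomial.aeval_C, Polynomial.aeval_X]
        apply Subtype.ext
        change ((aeval x' s : L) : Ω) * w - ((aeval x' r : L) : Ω) = 0
        rw [hval, hval, hrs, mul_div_cancel₀ _ hs, sub_self]
  have hle : Cardinal.lift.{u, 0} (Cardinal.mk ι) ≤ Cardinal.lift.{0, u} (Algebra.trdeg k L) := by
    refine le_trans ?_ hy'.lift_cardinalMk_le_trdeg
    rw [Cardinal.lift_le, ← Nat.cast_card, ← Nat.cast_card, Nat.cast_le]
    exact hcard
  have h1 := (Algebra.IsAlgebraic.isTranscendenceBasis_of_lift_le_trdeg_of_finite k x' hle).1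
  exact h1.map' (f := L.val) L.val.injective

theorem t_GENR (hB : S_BASE.{u}) (hT : S_THETA.{u}) : S_GENR.{u} := by
  classical
  intro k _ _ _ n d hd c _ hc E hE hdet R hR
  obtain ⟨b1, b2, -, -, b5, -⟩ := hB
  have hEu : IsUnit E.det := isUnit_iff_ne_zero.2 hdet
  have hEE : E * E⁻¹ = 1 := Matrix.mul_nonsing_inv _ hEu
  have hEE' : E⁻¹ * E = 1 := Matrix.nonsing_inv_mul _ hEu
  set g := conj E E⁻¹ (genf c) with hg
  -- (a)
  have ha : g = glue (fun a => algebraMap k (OM n d k) (c a)) (rest g) := by
    funext a
    unfold glue
    split_ifs with h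
    · obtain ⟨i, hi⟩ := h
      obtain ⟨j, m⟩ := a
      have hm : m = Card.sg d i := Card.eq_sg m i hi
      subst hm
      have h1 : ev g (bas i) = fun j => algebraMap k (OM n d k) (ev c (bas i) j) := by
        rw [hg, b1 (OM n d k) n d]
        have h2 : E *ᵥ bas i = fun l => E l i := by
          funext l
          simp [bas]
        rw [h2, hE i, Matrix.mulVec_mulVec, hEE', Matrix.one_mulVec]
      have h3 := congrFun h1 j
      rw [ev_bas, ev_bas] at h3
      exact h3
    · rfl
  -- (b)
  have hb : genf c = conj E⁻¹ E g := by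
    apply b2 (OM n d k) n d
    intro x
    rw [b1 (OM n d k) n d, hg, b1 (OM n d k) n d, Matrix.mulVec_mulVec, Matrix.mulVec_mulVec, hEE,
      Matrix.one_mulVec, Matrix.one_mulVec]
  -- algebraic independence of the generic point
  have hind : AlgebraicIndependent k (genf c) := by
    rw [algebraicIndependent_iff_injective_aeval]
    have h1 : ∀ P : Pol n d k, aeval (genf c) P = thetaO c P := by
      intro P
      unfold thetaO theta
      exact MvPolynomial.aeval_algebraMap_apply (OM n d k) (genfL c) P
    intro P P' h
    rw [h1, h1] at h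
    exact hT k n d hd c hc ((algebraMap (LL n d k) (OM n d k)).injective h)
  set x : (Fin n × Fin n) ⊕ Rest n d → (OM n d k) := Sum.elim (fun p => E p.1 p.2) (rest g) with hx
  have hxi : AlgebraicIndependent k x := by
    refine indep_of_gen x (genf c) hind ?_ ?_
    · set L := IntermediateField.adjoin k (Set.range x) with hL
      have hEm : ∀ l i, E l i ∈ L := fun l i =>
        IntermediateField.subset_adjoin k _ ⟨Sum.inl (l, i), rfl⟩
      have hzm : ∀ ρ, rest g ρ ∈ L := fun ρ =>
        IntermediateField.subset_adjoin k _ ⟨Sum.inr ρ, rfl⟩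
      have hgm : ∀ a, g a ∈ L := by
        intro a
        rw [ha]
        unfold glue
        split_ifs with h
        · exact L.algebraMap_mem _
        · exact hzm _
      let EL : Matrix (Fin n) (Fin n) L := Matrix.of fun l i => ⟨E l i, hEm l i⟩
      let gL : Cf n d → L := fun a => ⟨g a, hgm a⟩
      have h1 : E = EL.map (algebraMap L (OM n d k)) := by
        ext l i
        rfl
      have h2 : E⁻¹ = (EL⁻¹).map (algebraMap L (OM n d k)) := by
        have hdL : IsUnit EL.det := by
          rw [isUnit_iff_ne_zero]
          intro h0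
          apply hdet
          have h4 : E.det = algebraMap L (OM n d k) EL.det := by
            rw [RingHom.map_det]
            rfl
          rw [h4, h0, map_zero]
        rw [h1]
        apply Matrix.inv_eq_left_inv
        rw [← Matrix.map_mul, Matrix.nonsing_inv_mul _ hdL]
        exact Matrix.map_one _ (map_zero _) (map_one _)
      have h3 : g = fun a => algebraMap L (OM n d k) (gL a) := rfl
      intro a
      rw [hb, h2, h1, h3]
      rw [b5 L (OM n d k) (algebraMap L (OM n d k)) n d gL EL⁻¹ EL]
      exact (conj EL⁻¹ EL gL a).2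
    · rw [Nat.card_eq_fintype_card, Nat.card_eq_fintype_card, card_cf (by omega)]
  have hz : AlgebraicIndependent k (rest g) := hxi.comp Sum.inr Sum.inr_injective
  intro h0
  apply hR
  apply algebraicIndependent_iff_injective_aeval.1 hz
  rw [h0, map_zero]

end Pool.Agent.D0H10.SM.Genr
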