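import Pool.Agent.D0H90.SM.Stm4

set_option autoImplicit false

/-!
# SM 28: Nakayama on the slice (`t_NAK : S_NAK`)
-/

namespace Pool.Agent.D0H10.SM.Nak

open MvPolynomial Matrix Pool.Agent.D0H90.SM

universe u

variable {k : Type u} [Field k]

/-- The ideal of the point `z`. -/
noncomputable def pt {σ : Type*} (z : σ → k) : Ideal (MvPolynomial σ k) :=
  Ideal.span (Set.range fun ρ => X ρ - C (z ρ))

theorem mem_pt {σ : Type*} (z : σ → k) (ρ : σ) : X ρ - C (z ρ) ∈ pt z :=
  Ideal.subset_span ⟨ρ, rfl⟩

theorem eval_pt {σ : Type*} (z : σ → k) {F : MvPolynomial σ k} (h : F ∈ pt z) :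
    eval z F = 0 := by
  have h1 : pt z ≤ RingHom.ker (eval z) := by
    unfold pt
    rw [Ideal.span_le]
    rintro _ ⟨ρ, rfl⟩
    simp [RingHom.mem_ker]
  exact h1 h

theorem taylor {σ : Type*} [Fintype σ] (z : σ → k) (F : MvPolynomial σ k) :
    F - C (eval z F) - ∑ ρ, C (eval z (pderiv ρ F)) * (X ρ - C (z ρ)) ∈ pt z ^ 2 := by
  classical
  induction F using MvPolynomial.induction_on with
  | C a => simp
  | add p q hp hq =>
    have := Ideal.add_mem _ hp hq
    convert this using 1
    simp only [map_add, add_mul, Finset.sum_add_distrib]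
    ring
  | mul_X p i hp =>
    have h1 : p - C (eval z p) ∈ pt z := by
      have h2 : p - C (eval z p) = (p - C (eval z p) -
          ∑ ρ, C (eval z (pderiv ρ p)) * (X ρ - C (z ρ))) +
          ∑ ρ, C (eval z (pderiv ρ p)) * (X ρ - C (z ρ)) := by ring
      rw [h2]
      refine Ideal.add_mem _ (Ideal.pow_le_self two_ne_zero hp) ?_
      exact Ideal.sum_mem _ fun ρ _ => Ideal.mul_mem_left _ _ (mem_pt z ρ)
    have h3 : (p - C (eval z p)) * (X i - C (z i)) ∈ pt z ^ 2 := by
      rw [pow_two]
      exact Ideal.mul_mem_mul h1 (mem_pt z i)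
    have h4 := Ideal.add_mem _ (Ideal.mul_mem_left _ (C (z i)) hp) h3
    convert h4 using 1
    have h5 : ∀ ρ, eval z (pderiv ρ (p * X i)) =
        z i * eval z (pderiv ρ p) + (if ρ = i then eval z p else 0) := by
      intro ρ
      rw [Derivation.leibniz, map_add, smul_eq_mul, smul_eq_mul, map_mul, map_mul, pderiv_X,
        eval_X]
      by_cases h : ρ = i
      · subst h
        simp
        ring
      · rw [Pi.single_eq_of_ne (Ne.symm h)]
        simp [h]
    simp only [h5, map_add, map_mul, eval_X, add_mul, Finset.sum_add_distrib]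
    have h6 : ∑ ρ, C (if ρ = i then eval z p else 0) * (X ρ - C (z ρ)) =
        C (eval z p) * (X i - C (z i)) := by
      rw [Finset.sum_eq_single i]
      · simp
      · intro b _ hb
        simp [hb]
      · simp
    have h7 : ∑ ρ, C (z i) * C (eval z (pderiv ρ p)) * (X ρ - C (z ρ)) =
        C (z i) * ∑ ρ, C (eval z (pderiv ρ p)) * (X ρ - C (z ρ)) := by
      rw [Finset.mul_sum]
      simp only [mul_assoc]
    rw [h6, h7]
    ring

theorem pderiv_res {n d : ℕ} (c : Cf n d → k) (σ : Rest n d) (P : Pol n d k) :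
    pderiv σ (res c P) = res c (pderiv σ.1 P) := by
  classical
  induction P using MvPolynomial.induction_on with
  | C a => simp [res]
  | add p q hp hq => rw [map_add, map_add, map_add, map_add, hp, hq]
  | mul_X p i hp =>
    rw [map_mul, Derivation.leibniz, Derivation.leibniz, map_add, smul_eq_mul, smul_eq_mul,
      smul_eq_mul, smul_eq_mul, map_mul, map_mul, hp]
    congr 2
    have h1 : res c (X i) = glue (fun a => (C (c a) : MvPolynomial (Rest n d) k)) X i := by
      simp [res]
    rw [h1, pderiv_X]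
    unfold glue
    split_ifs with h
    · rw [pderiv_C]
      have : σ.1 ≠ i := by
        rintro rfl
        exact σ.2 h
      rw [Pi.single_eq_of_ne (Ne.symm this), map_zero]
    · rw [pderiv_X]
      by_cases h' : σ.1 = i
      · subst h'
        simp
      · have : σ ≠ ⟨i, h⟩ := by
          rintro rfl
          exact h' rfl
        rw [Pi.single_eq_of_ne (Ne.symm this), Pi.single_eq_of_ne (Ne.symm h'), map_zero]

omit [Field k] in
theorem glue_rest' {n d : ℕ} (c : Cf n d → k) : glue c (rest c) = c := by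
  classical
  funext a
  unfold glue rest
  split_ifs <;> rfl

theorem eval_res {n d : ℕ} (c : Cf n d → k) (P : Pol n d k) :
    eval (rest c) (res c P) = eval c P := by
  classical
  have h : ((eval (rest c)).comp ((res c : Pol n d k →ₐ[k] MvPolynomial (Rest n d) k) :
      Pol n d k →+* MvPolynomial (Rest n d) k)) = eval c := by
    apply MvPolynomial.ringHom_ext
    · intro a
      simp [res]
    · intro i
      simp only [RingHom.comp_apply, RingHom.coe_coe, res, aeval_X, eval_X]
      unfold glue rest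
      split_ifs <;> simp
  exact congrArg (fun g : Pol n d k →+* k => g P) h

theorem t_NAK : S_NAK.{u} := by
  classical
  intro k _ n d c P P₀ Q hQ hP hP₀ hJ hg
  set z : Rest n d → k := rest c with hz
  set I := pt z with hI
  set J : Ideal (MvPolynomial (Rest n d) k) := Ideal.span (Set.range fun ρ => res c (P ρ)) with hJd
  have hder : ∀ (F : Pol n d k) (σ : Rest n d),
      eval z (pderiv σ (res c F)) = eval c (pderiv σ.1 F) := by
    intro F σ
    rw [pderiv_res, hz, eval_res]
  -- the first claim
  have h0 : res c P₀ ∈ I ^ 2 := by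
    have h1 := taylor z (res c P₀)
    have h2 : eval z (res c P₀) = 0 := by rw [hz, eval_res, hP₀]
    have h3 : ∀ ρ, eval z (pderiv ρ (res c P₀)) = 0 := by
      intro ρ
      rw [hder]
      have := hg ρ
      unfold grad at this
      rw [map_sub, map_mul, map_mul, hP₀, zero_mul, sub_zero] at this
      exact (mul_eq_zero.1 this).resolve_left hQ
    simpa [h2, h3] using h1
  -- the matrix of derivatives
  set A : Matrix (Rest n d) (Rest n d) k :=
    Matrix.of fun ρ σ => eval c Q * eval c (pderiv σ.1 (P ρ)) with hA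
  have hdet : A.det ≠ 0 := by
    have h1 : eval c (Jac P fun _ => Q) = A.det := by
      unfold Jac
      rw [RingHom.map_det]
      congr 1
      · ext ρ σ
        simp only [RingHom.mapMatrix_apply, Matrix.map_apply, Matrix.of_apply, hA]
        unfold grad
        rw [map_sub, map_mul, map_mul, hP, zero_mul, sub_zero]
    rwa [h1] at hJ
  have hAi : A⁻¹ * A = 1 := Matrix.nonsing_inv_mul _ (isUnit_iff_ne_zero.2 hdet)
  have hle : I ≤ J ⊔ I • I := by
    rw [hI]
    conv_lhs => unfold pt
    rw [Ideal.span_le]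
    rintro _ ⟨τ, rfl⟩
    have h3 : ∀ σ, ∑ ρ, (C (A⁻¹ τ ρ * eval c Q) * C (eval c (pderiv σ.1 (P ρ))) :
        MvPolynomial (Rest n d) k) = C (if τ = σ then 1 else 0) := by
      intro σ
      have h4 := congrFun (congrFun hAi τ) σ
      rw [Matrix.mul_apply, Matrix.one_apply] at h4
      rw [← h4, map_sum]
      refine Finset.sum_congr rfl fun ρ _ => ?_
      rw [← map_mul]
      congr 1
      simp only [hA, Matrix.of_apply]
      ring
    have h5 : ∑ ρ, C (A⁻¹ τ ρ * eval c Q) * (∑ σ : Rest n d, C (eval c (pderiv σ.1 (P ρ))) *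
        (X σ - C (z σ) : MvPolynomial (Rest n d) k)) = X τ - C (z τ) := by
      simp only [Finset.mul_sum]
      rw [Finset.sum_comm]
      simp only [← mul_assoc, ← Finset.sum_mul, h3]
      rw [Finset.sum_eq_single τ]
      · simp
      · intro b _ hb
        simp [Ne.symm hb]
      · simp
    have h1 : X τ - C (z τ) = ∑ ρ, C (A⁻¹ τ ρ * eval c Q) * res c (P ρ) +
        (- ∑ ρ, C (A⁻¹ τ ρ * eval c Q) * (res c (P ρ) -
          ∑ σ : Rest n d, C (eval c (pderiv σ.1 (P ρ))) * (X σ - C (z σ)))) := by
      rw [← h5, ← Finset.sum_neg_distrib, ← Finset.sum_add_distrib]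
      refine Finset.sum_congr rfl fun ρ _ => ?_
      ring
    rw [SetLike.mem_coe]
    change X τ - C (z τ) ∈ J ⊔ pt z • pt z
    rw [h1]
    refine Submodule.add_mem_sup ?_ ?_
    · exact Ideal.sum_mem _ fun ρ _ => Ideal.mul_mem_left _ _ (Ideal.subset_span ⟨ρ, rfl⟩)
    · rw [smul_eq_mul, ← pow_two]
      refine neg_mem (Ideal.sum_mem _ fun ρ _ => Ideal.mul_mem_left _ _ ?_)
      have h6 := taylor z (res c (P ρ))
      have h7 : eval z (res c (P ρ)) = 0 := by rw [hz, eval_res, hP]
      simp only [h7, hder, map_zero, sub_zero] at h6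
      exact h6
  have hfg : I.FG := IsNoetherian.noetherian _
  obtain ⟨r, hr, hrI⟩ := Submodule.exists_sub_one_mem_and_smul_le_of_fg_of_le_sup hfg le_rfl hle
  have hr1 : eval z r = 1 := by
    have := eval_pt z hr
    rw [map_sub, map_one, sub_eq_zero] at this
    exact this
  have hrJ : ∀ x ∈ I, r * x ∈ J := fun x hx => hrI (Submodule.smul_mem_pointwise_smul x r I hx)
  have h2 : ∀ x ∈ I ^ 2, r ^ 2 * x ∈ J * J := by
    intro x hx
    rw [pow_two] at hx
    induction hx using Submodule.mul_induction_on' with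
    | mem_mul_mem a ha b hb =>
      have : r ^ 2 * (a * b) = (r * a) * (r * b) := by ring
      rw [this]
      exact Ideal.mul_mem_mul (hrJ a ha) (hrJ b hb)
    | add a _ b _ ha hb =>
      rw [mul_add]
      exact Ideal.add_mem _ ha hb
  have h3 : r ^ 2 * res c P₀ * res c Q ∈ J * J := Ideal.mul_mem_right _ _ (h2 _ h0)
  have h4 : J * J = Ideal.span (Set.range fun p : Rest n d × Rest n d =>
      res c (P p.1) * res c (P p.2)) := by
    rw [hJd, Ideal.span_mul_span']
    congr 1
    ext x
    simp only [Set.mem_mul, Set.mem_range, exists_exists_eq_and, Prod.exists]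
  rw [h4, Ideal.mem_span_range_iff_exists_fun] at h3
  obtain ⟨R, hR⟩ := h3
  refine ⟨r ^ 2, fun ρ ρ' => R (ρ, ρ'), ?_, ?_⟩
  · rw [map_pow, hr1, one_pow]
    exact one_ne_zero
  · rw [← hR, Fintype.sum_prod_type]
    refine Finset.sum_congr rfl fun ρ _ => Finset.sum_congr rfl fun ρ' _ => ?_
    ring

end Pool.Agent.D0H10.SM.Nak
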